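import Pool.Agent.KS6_19.DA.L.Helper240.ZFM.Riem

set_option autoImplicit false
open Complex Set Filter Metric Topology

namespace Pool.Agent.Helper405.Koebe
open Pool.Agent.Helper405.Riemann

/-- Schwarz-Pick for the right half plane -/
theorem schwarz_pick_half {q : ℂ → ℂ} (hq : DifferentiableOn ℂ q (ball 0 1))
    (hre : ∀ z ∈ ball (0 : ℂ) 1, 0 < (q z).re) {z : ℂ} (hz : z ∈ ball (0 : ℂ) 1) :
    (1 - ‖z‖ ^ 2) * ‖deriv q z‖ ≤ 2 * (q z).re := by
  have hz1 : ‖z‖ < 1 := by simpa using hz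
  have hzn : ‖-z‖ < 1 := by rwa [norm_neg]
  set Q : ℂ → ℂ := fun ξ => (q (bl (-z) ξ) - q z) / (q (bl (-z) ξ) + (starRingEnd ℂ) (q z)) with hQ
  have hbl : ∀ ξ ∈ ball (0 : ℂ) 1, bl (-z) ξ ∈ ball (0 : ℂ) 1 := by
    intro ξ hξ
    have : ‖ξ‖ < 1 := by simpa using hξ
    simpa using bl_norm_lt hzn this
  have hqz := hre z hz
  have hden : ∀ ξ ∈ ball (0 : ℂ) 1, q (bl (-z) ξ) + (starRingEnd ℂ) (q z) ≠ 0 := by
    intro ξ hξ h
    have h1 := hre _ (hbl ξ hξ)
    have h2 := congrArg Complex.re h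
    rw [add_re, conj_re, zero_re] at h2
    linarith
  have hqd : ∀ ξ ∈ ball (0 : ℂ) 1, HasDerivAt (fun ξ => q (bl (-z) ξ))
      (deriv q (bl (-z) ξ) * ((1 - (starRingEnd ℂ) (-z) * (-z)) / (1 - (starRingEnd ℂ) (-z) * ξ) ^ 2)) ξ := by
    intro ξ hξ
    have : ‖ξ‖ < 1 := by simpa using hξ
    have h1 : HasDerivAt q (deriv q (bl (-z) ξ)) (bl (-z) ξ) :=
      (hq.differentiableAt (isOpen_ball.mem_nhds (hbl ξ hξ))).hasDerivAt
    exact h1.comp ξ (bl_hasDerivAt hzn this)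
  have hQd : ∀ ξ ∈ ball (0 : ℂ) 1, HasDerivAt Q
      (((deriv q (bl (-z) ξ) * ((1 - (starRingEnd ℂ) (-z) * (-z)) / (1 - (starRingEnd ℂ) (-z) * ξ) ^ 2))
        * (q (bl (-z) ξ) + (starRingEnd ℂ) (q z)) - (q (bl (-z) ξ) - q z) *
        (deriv q (bl (-z) ξ) * ((1 - (starRingEnd ℂ) (-z) * (-z)) / (1 - (starRingEnd ℂ) (-z) * ξ) ^ 2)))
        / (q (bl (-z) ξ) + (starRingEnd ℂ) (q z)) ^ 2) ξ := by
    intro ξ hξ
    exact ((hqd ξ hξ).sub_const _).div ((hqd ξ hξ).add_const _) (hden ξ hξ)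
  have hb0 : bl (-z) 0 = z := by rw [bl_zero, neg_neg]
  have hQ0 : Q 0 = 0 := by
    simp only [hQ, hb0, sub_self, zero_div]
  have hmap : MapsTo Q (ball 0 1) (closedBall (Q 0) 1) := by
    intro ξ hξ
    rw [hQ0, mem_closedBall_zero_iff, hQ]
    simp only
    rw [norm_div, div_le_one (norm_pos_iff.2 (hden ξ hξ))]
    have h1 := hre _ (hbl ξ hξ)
    have h3 : ‖q (bl (-z) ξ) - q z‖ ^ 2 ≤ ‖q (bl (-z) ξ) + (starRingEnd ℂ) (q z)‖ ^ 2 := by
      rw [← Complex.normSq_eq_norm_sq, ← Complex.normSq_eq_norm_sq, Complex.normSq_apply,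
        Complex.normSq_apply]
      simp only [sub_re, sub_im, add_re, add_im, conj_re, conj_im]
      nlinarith
    exact (sq_le_sq₀ (norm_nonneg _) (norm_nonneg _)).1 h3
  have hQdiff : DifferentiableOn ℂ Q (ball 0 1) := fun ξ hξ =>
    (hQd ξ hξ).differentiableAt.differentiableWithinAt
  have hfin := Complex.norm_deriv_le_div_of_mapsTo_ball hQdiff hmap one_pos
  rw [(hQd 0 (by simp)).deriv, hb0] at hfin
  have e1 : (1 : ℂ) - (starRingEnd ℂ) (-z) * (-z) = ((1 - ‖z‖ ^ 2 : ℝ) : ℂ) := by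
    rw [map_neg, neg_mul_neg, mul_comm, Complex.mul_conj, Complex.normSq_eq_norm_sq]
    push_cast; rfl
  have e2 : q z + (starRingEnd ℂ) (q z) = ((2 * (q z).re : ℝ) : ℂ) := by
    rw [Complex.add_conj]
  rw [sub_self, zero_mul, sub_zero, mul_zero, sub_zero, one_pow, div_one, e1, e2] at hfin
  have hpos : 0 < 1 - ‖z‖ ^ 2 := by nlinarith [norm_nonneg z]
  have h2pos : 0 < 2 * (q z).re := by positivity
  rw [norm_div, norm_mul, norm_mul, norm_pow, Complex.norm_real, Complex.norm_real,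
    Real.norm_of_nonneg hpos.le, Real.norm_of_nonneg h2pos.le, one_div_one, div_le_one (by positivity)] at hfin
  have h3 : (2 * (q z).re) * (‖deriv q z‖ * (1 - ‖z‖ ^ 2)) ≤ (2 * (q z).re) * (2 * (q z).re) := by
    nlinarith
  have h4 := le_of_mul_le_mul_left h3 h2pos
  linarith

/-- Koebe distortion bound for star-like image -/
theorem koebe_star {U : Set ℂ} (hU : StarConvex ℝ 0 U) (h0 : (0 : ℂ) ∈ U) {g : ℂ → ℂ}
    (hg : DifferentiableOn ℂ g (ball 0 1)) (hm : MapsTo g (ball 0 1) U) {v : ℂ} (hv : v ∉ U)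
    {z : ℂ} (hz : z ∈ ball (0 : ℂ) 1) :
    (1 - ‖z‖ ^ 2) * ‖deriv g z‖ ≤ 4 * ‖g z - v‖ := by
  have hv0 : v ≠ 0 := fun h => hv (h ▸ h0)
  have hslit : ∀ x ∈ ball (0 : ℂ) 1, 1 - g x / v ∈ slitPlane := by
    intro x hx
    by_contra hcon
    rw [Complex.mem_slitPlane_iff] at hcon
    push Not at hcon
    obtain ⟨hr, hi⟩ := hcon
    set r : ℝ := -(1 - g x / v).re with hrd
    have hr0 : 0 ≤ r := by linarith
    have e1 : 1 - g x / v = ((-r : ℝ) : ℂ) := by
      apply Complex.ext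
      · simp only [hrd, neg_neg, Complex.ofReal_re]
      · rw [hi, Complex.ofReal_im]
    have e2 : v = ((1 / (1 + r) : ℝ) : ℂ) * g x := by
      have e3 : g x = v * (1 + r) := by
        have : g x / v = 1 + r := by
          have := e1
          push_cast at this
          linear_combination -this
        field_simp at this
        rw [this]
      rw [e3]
      have : (1 + (r : ℂ)) ≠ 0 := by
        intro h
        have := congrArg Complex.re h
        simp at this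
        linarith
      push_cast
      field_simp
    apply hv
    have h3 := hU (hm hx) (a := 1 - 1 / (1 + r)) (b := 1 / (1 + r))
      (by
        rw [sub_nonneg, div_le_one (by positivity)]
        linarith) (by positivity) (by ring)
    rw [smul_zero, zero_add, Complex.real_smul] at h3
    rw [e2]; exact h3
  set q : ℂ → ℂ := fun x => (1 - g x / v) ^ ((1 : ℂ) / 2) with hq
  have hgd : HasDerivAt g (deriv g z) z := (hg.differentiableAt (isOpen_ball.mem_nhds hz)).hasDerivAt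
  have hqdiff : DifferentiableOn ℂ q (ball 0 1) := by
    intro x hx
    have hgx : DifferentiableAt ℂ g x := hg.differentiableAt (isOpen_ball.mem_nhds hx)
    exact ((hgx.div_const v).const_sub 1 |>.cpow_const (hslit x hx)).differentiableWithinAt
  have hqre : ∀ x ∈ ball (0 : ℂ) 1, 0 < (q x).re := by
    intro x hx
    have h1 := hslit x hx
    have hne := Complex.slitPlane_ne_zero h1
    simp only [hq]
    rw [Complex.cpow_def_of_ne_zero hne, Complex.exp_re]
    apply mul_pos (Real.exp_pos _)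
    apply Real.cos_pos_of_mem_Ioo
    have h2 : (Complex.log (1 - g x / v) * (1 / 2)).im = (1 - g x / v).arg / 2 := by
      rw [show (1 / 2 : ℂ) = ((1 / 2 : ℝ) : ℂ) by push_cast; rfl, Complex.im_mul_ofReal,
        Complex.log_im]
      ring
    rw [h2]
    have h3 := Complex.mem_slitPlane_iff_arg.1 h1
    have h4 := Complex.arg_le_pi (1 - g x / v)
    have h5 := Complex.neg_pi_lt_arg (1 - g x / v)
    have h6 : (1 - g x / v).arg < Real.pi := lt_of_le_of_ne h4 h3.1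
    constructor <;> linarith
  have hsp := schwarz_pick_half hqdiff hqre hz
  have hqsq : ∀ x ∈ ball (0 : ℂ) 1, q x ^ 2 = 1 - g x / v := by
    intro x hx
    simp only [hq]
    rw [← Complex.cpow_nat_mul]
    norm_num
  have hqd : HasDerivAt q (deriv q z) z :=
    (hqdiff.differentiableAt (isOpen_ball.mem_nhds hz)).hasDerivAt
  have h1 : HasDerivAt (fun x => q x ^ 2) (2 * q z * deriv q z) z := by
    have := hqd.fun_pow 2
    simpa using this
  have h2 : HasDerivAt (fun x => 1 - g x / v) (-(deriv g z / v)) z := by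
    simpa using (hgd.div_const v).const_sub 1
  have h3 : HasDerivAt (fun x => q x ^ 2) (-(deriv g z / v)) z := by
    apply h2.congr_of_eventuallyEq
    filter_upwards [isOpen_ball.mem_nhds hz] with x hx
    exact hqsq x hx
  have h4 : 2 * q z * deriv q z = -(deriv g z / v) := h1.unique h3
  have h5 : deriv g z = - (2 * v * q z * deriv q z) := by
    field_simp at h4
    linear_combination h4
  have h6 : ‖q z‖ ^ 2 = ‖g z - v‖ / ‖v‖ := by
    rw [← norm_pow, hqsq z hz, ← norm_div, ← norm_neg]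
    congr 1
    field_simp
    ring
  have hqle : (q z).re ≤ ‖q z‖ := Complex.re_le_norm _
  have hvpos : 0 < ‖v‖ := norm_pos_iff.2 hv0
  have h7 : ‖g z - v‖ = ‖v‖ * ‖q z‖ ^ 2 := by rw [h6]; field_simp
  rw [h5, h7, norm_neg, norm_mul, norm_mul, norm_mul]
  have e2 : ‖(2 : ℂ)‖ = 2 := by simp
  rw [e2]
  have h8 : (1 - ‖z‖ ^ 2) * (2 * ‖v‖ * ‖q z‖ * ‖deriv q z‖)
      = (2 * ‖v‖ * ‖q z‖) * ((1 - ‖z‖ ^ 2) * ‖deriv q z‖) := by ring
  rw [h8]
  calc (2 * ‖v‖ * ‖q z‖) * ((1 - ‖z‖ ^ 2) * ‖deriv q z‖)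
      ≤ (2 * ‖v‖ * ‖q z‖) * (2 * ‖q z‖) := by
        apply mul_le_mul_of_nonneg_left _ (by positivity)
        linarith
    _ = 4 * (‖v‖ * ‖q z‖ ^ 2) := by ring

/-- lower bound -/
theorem lower_bound {U : Set ℂ} (hU : IsOpen U) {g φ : ℂ → ℂ}
    (hg : DifferentiableOn ℂ g (ball 0 1)) (hm : MapsTo g (ball 0 1) U)
    (hφ : DifferentiableOn ℂ φ U) (hφm : MapsTo φ U (ball 0 1))
    (hφg : ∀ z ∈ ball (0 : ℂ) 1, φ (g z) = z)
    {z : ℂ} (hz : z ∈ ball (0 : ℂ) 1) {ρ : ℝ} (hρ : 0 < ρ) (hb : ball (g z) ρ ⊆ U) :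
    ρ ≤ (1 - ‖z‖ ^ 2) * ‖deriv g z‖ := by
  have hz1 : ‖z‖ < 1 := by simpa using hz
  have hgz : g z ∈ U := hm hz
  have hφd : HasDerivAt φ (deriv φ (g z)) (g z) :=
    (hφ.differentiableAt (hU.mem_nhds hgz)).hasDerivAt
  have hgd : HasDerivAt g (deriv g z) z := (hg.differentiableAt (isOpen_ball.mem_nhds hz)).hasDerivAt
  have h1 : deriv φ (g z) * deriv g z = 1 := by
    have h2 : HasDerivAt (fun x => φ (g x)) (deriv φ (g z) * deriv g z) z := hφd.comp z hgd
    have h3 : HasDerivAt (fun x => φ (g x)) 1 z := by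
      apply (hasDerivAt_id z).congr_of_eventuallyEq
      filter_upwards [isOpen_ball.mem_nhds hz] with x hx
      exact hφg x hx
    exact h2.unique h3
  set Ψ : ℂ → ℂ := fun x => bl z (φ x) with hΨ
  have hlt : ∀ x ∈ U, ‖φ x‖ < 1 := fun x hx => by simpa using hφm hx
  have hΨd : ∀ x ∈ U, HasDerivAt Ψ
      ((1 - (starRingEnd ℂ) z * z) / (1 - (starRingEnd ℂ) z * φ x) ^ 2 * deriv φ x) x := by
    intro x hx
    have hd : HasDerivAt φ (deriv φ x) x := (hφ.differentiableAt (hU.mem_nhds hx)).hasDerivAt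
    exact (bl_hasDerivAt hz1 (hlt x hx)).comp x hd
  have hΨz : Ψ (g z) = 0 := by
    simp only [hΨ, hφg z hz, bl_self]
  have hfin := Complex.norm_deriv_le_div_of_mapsTo_ball (f := Ψ) (c := g z) (R₁ := ρ) (R₂ := 1)
    (fun x hx => (hΨd x (hb hx)).differentiableAt.differentiableWithinAt)
    (by
      intro x hx
      rw [hΨz, mem_closedBall_zero_iff]
      exact (bl_norm_lt hz1 (hlt x (hb hx))).le) hρ
  rw [(hΨd _ hgz).deriv, hφg z hz] at hfin
  have e1 : (1 : ℂ) - (starRingEnd ℂ) z * z = ((1 - ‖z‖ ^ 2 : ℝ) : ℂ) := by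
    rw [mul_comm, Complex.mul_conj, Complex.normSq_eq_norm_sq]
    push_cast; rfl
  have hpos : 0 < 1 - ‖z‖ ^ 2 := by nlinarith [norm_nonneg z]
  rw [e1, norm_mul, norm_div, norm_pow, Complex.norm_real, Real.norm_of_nonneg hpos.le] at hfin
  have h2 : ‖deriv φ (g z)‖ * ‖deriv g z‖ = 1 := by rw [← norm_mul, h1, norm_one]
  have hgpos : 0 < ‖deriv g z‖ := by
    rw [norm_pos_iff]; intro h; rw [h, norm_zero, mul_zero] at h2; norm_num at h2
  have h3 : ‖deriv φ (g z)‖ = 1 / ‖deriv g z‖ := by field_simp; exact h2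
  rw [h3] at hfin
  have h4 : (1 - ‖z‖ ^ 2) / (1 - ‖z‖ ^ 2) ^ 2 * (1 / ‖deriv g z‖) = 1 / ((1 - ‖z‖ ^ 2) * ‖deriv g z‖) := by
    field_simp
  rw [h4, div_le_div_iff_of_pos_left one_pos (by positivity) hρ] at hfin
  exact hfin

end Pool.Agent.Helper405.Koebe
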